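import Mathlib
import Pool.Agent.Lib.MP_3fd808_co.MonoCycles

set_option autoImplicit false

namespace Pool.Agent.Results.MP_3fd808_co.MonoCyclesOffRed

/-- Let the arcs of a nonempty finite tournament be coloured with any set of colours, and let `red`
be a colour such that every directed cycle with no red arc is monochromatic.  Then there is a
rainbow directed triangle or a vertex that reaches every other vertex by a monochromatic directed
path. -/
theorem result (V C : Type) [Fintype V] [Nonempty V] (adj : V → V → Prop) (c : V → V → C)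
    (red : C) (hasym : ∀ x y : V, adj x y → ¬ adj y x)
    (htot : ∀ x y : V, x ≠ y → adj x y ∨ adj y x)
    (hmono : ∀ (k : ℕ) (f : ℕ → V), 3 ≤ k →
      (∀ i j : ℕ, i < k → j < k → f i = f j → i = j) →
      (∀ i : ℕ, i < k → adj (f i) (f ((i + 1) % k))) →
      (∀ i : ℕ, i < k → c (f i) (f ((i + 1) % k)) ≠ red) →
      ∀ i j : ℕ, i < k → j < k → c (f i) (f ((i + 1) % k)) = c (f j) (f ((j + 1) % k))) :
    (∃ x y z : V, adj x y ∧ adj y z ∧ adj z x ∧
        c x y ≠ c y z ∧ c y z ≠ c z x ∧ c z x ≠ c x y) ∨
      (∃ v : V, ∀ w : V, w ≠ v →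
        ∃ a : C, Relation.TransGen (fun x y : V => adj x y ∧ c x y = a) v w) := by
  by_cases hr : Pool.Agent.Lib.MP_3fd808_co.MonoCycles.Rainbow adj c
  · exact Or.inl hr
  · exact Or.inr (Pool.Agent.Lib.MP_3fd808_co.MonoCycles.main _ V adj c red rfl hasym htot hmono hr)

end Pool.Agent.Results.MP_3fd808_co.MonoCyclesOffRed
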