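import Mathlib
import Pool.Agent.S08318

set_option autoImplicit false

namespace Pool.Agent.Results.MP_3fd808_co.SixVertices

open Pool.Agent.S08318

/-- There is a tournament on six vertices with a 4-colouring of its arcs in which every directed
cycle has two different arcs of the same colour and every vertex `v` fails to reach some other
vertex by a monochromatic directed path. -/
theorem result :
    ∃ (adj : Fin 6 → Fin 6 → Prop) (c : Fin 6 → Fin 6 → Fin 4),
      (∀ x, ¬ adj x x) ∧ (∀ x y, adj x y → ¬ adj y x) ∧ (∀ x y, x ≠ y → adj x y ∨ adj y x) ∧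
      (∀ (k : ℕ) (f : ZMod (k + 3) → Fin 6), Function.Injective f →
          (∀ i, adj (f i) (f (i + 1))) →
          ¬ Function.Injective (fun i => c (f i) (f (i + 1)))) ∧
      (∀ v, ∃ w, w ≠ v ∧
          ∀ a : Fin 4, ¬ Relation.TransGen (fun x y => adj x y ∧ c x y = a) v w) := by
  refine ⟨fun x y => adjB x y = true, colF, by decide, by decide, by decide, ?_, ?_⟩
  · intro k f _ hadj hinj
    have hk : k + 3 ≤ 4 := by
      simpa using Fintype.card_le_of_injective _ hinj
    obtain rfl | rfl : k = 0 ∨ k = 1 := by omega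
    · rcases no_tri _ _ _ (hadj 0) (hadj 1) (hadj 2) with h | h | h
      · exact absurd (hinj (a₁ := 0) (a₂ := 1) h) (by decide)
      · exact absurd (hinj (a₁ := 1) (a₂ := 2) h) (by decide)
      · exact absurd (hinj (a₁ := 0) (a₂ := 2) h) (by decide)
    · rcases no_four _ _ _ _ (hadj 0) (hadj 1) (hadj 2) (hadj 3) with h | h | h | h | h | h
      · exact absurd (hinj (a₁ := 0) (a₂ := 1) h) (by decide)
      · exact absurd (hinj (a₁ := 0) (a₂ := 2) h) (by decide)
      · exact absurd (hinj (a₁ := 0) (a₂ := 3) h) (by decide)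
      · exact absurd (hinj (a₁ := 1) (a₂ := 2) h) (by decide)
      · exact absurd (hinj (a₁ := 1) (a₂ := 3) h) (by decide)
      · exact absurd (hinj (a₁ := 2) (a₂ := 3) h) (by decide)
  · intro v
    refine ⟨v - 1, pred_ne v, fun a ha => ?_⟩
    have ha' : Relation.TransGen
        (fun x y : Fin 6 => adjB x y = true ∧ (colF x y : ℕ) = (a : ℕ)) v (v - 1) := by
      generalize v - 1 = w at ha
      induction ha with
      | single h => exact .single ⟨h.1, congrArg Fin.val h.2⟩
      | tail _ h ih => exact .tail ih ⟨h.1, congrArg Fin.val h.2⟩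
    obtain ⟨b, -, hb⟩ := reach_of_transGen a v (v - 1) ha'
    rw [reach_miss] at hb
    exact Bool.false_ne_true hb

end Pool.Agent.Results.MP_3fd808_co.SixVertices
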